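import Pool.Agent.helper82.SW.SpecW
import Pool.Agent.helper64.TP.Conv
import Pool.Agent.helper64.TP.Basic

/-!
# Project sp, module WU4B: the spectral sample is not empty in the limit
-/

namespace Pool.Agent.helper82.SW

open MeasureTheory Filter Topology

theorem U4B_meas (i : ℕ) : MeasurableSet (TP.Fc i) := by
  have hfin : (DP.rect 1 (2 * 2 ^ i) 0 (TP.hh (2 ^ i))).Finite := by
    refine ((Set.finite_Icc (1 : ℤ) (2 * 2 ^ i)).prod
      (Set.finite_Icc (0 : ℤ) (TP.hh (2 ^ i)))).subset ?_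
    rintro ⟨a, b⟩ ⟨h1, h2, h3, h4⟩
    exact ⟨⟨h1, h2⟩, h3, h4⟩
  have h : TP.Loc (TP.Fc i) (DP.rect 1 (2 * 2 ^ i) 0 (TP.hh (2 ^ i))) := by
    refine TP.Loc.ev hfin fun c c' h => ?_
    unfold DP.hcross
    simp only [DP.Conn.congr h]
  exact h.measurableSet

theorem U4B_int (F : Set (ℤ × ℤ → Bool)) (hF : MeasurableSet F) :
    ∫ b, TP.pmf F b ∂DP.P1 = 2 * DP.Pr F - 1 := by
  have hP : IsProbabilityMeasure DP.P1 := by unfold DP.P1; infer_instance
  unfold TP.pmf DP.Pr
  rw [integral_sub, integral_const_mul, integral_indicator_one hF]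
  · simp
  · exact ((integrable_const (1 : ℝ)).indicator hF).const_mul 2
  · exact integrable_const _

theorem U4B (hPRB : PRB_stmt) : U4B_stmt := by
  classical
  intro hC
  have h1 : ∀ i, TP.PS i (fun X => ¬ X.Nonempty) = (2 * DP.Pr (TP.Fc i) - 1) ^ 2 := by
    intro i
    unfold TP.PS TP.PSF
    rw [Finset.sum_eq_single ∅]
    · rw [if_pos (by simp)]
      unfold TP.fh
      simp only [Finset.prod_empty, mul_one]
      rw [U4B_int _ (U4B_meas i)]
    · intro T _ hT
      rw [if_neg]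
      rw [not_not, Finset.coe_nonempty]
      exact Finset.nonempty_iff_ne_empty.2 hT
    · intro h
      exact absurd (Finset.empty_mem_powerset _) h
  have h2 : Tendsto (fun i : ℕ => DP.Pr (TP.Fc i)) atTop (𝓝 (1 / 2)) := by
    have h3 : Tendsto (fun i : ℕ => 2 ^ i) atTop atTop := tendsto_pow_atTop_atTop_of_one_lt one_lt_two
    have h4 := hC.comp h3
    refine h4.congr fun i => ?_
    exact (hPRB i).symm
  show Tendsto (fun i => TP.PS i fun X => ¬ X.Nonempty) atTop (𝓝 0)
  simp only [h1]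
  have h5 := ((h2.const_mul 2).sub_const 1).pow 2
  simpa using h5

end Pool.Agent.helper82.SW
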